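import Pool.Agent.Lib.ALLX.XDefs
import Pool.Agent.Lib.ALL_h83.ICl

/-!
# PROJECT ALL, block X, rows R1, R4
-/

set_option autoImplicit false

namespace Pool.Agent.ALL

open Pool.Agent.H15JM (RVal)
open Pool.Agent.LU1 (VPos fixO locv FracIs)
open Pool.Agent.LU3 (Ctx0)
open Pool.Agent.TA
open Pool.Agent.ALLh85 (extD)
open Submodule Module

universe u

variable {k Ω : Type u} [Field k] [Field Ω] [Algebra k Ω] {v : RVal Ω} {n r D : ℕ} {p : ℕ}
  {ι : Type} [Fintype ι] {E : IntermediateField k Ω}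

theorem JM_eq (δ : Fin r ⊕ Fin D → Derivation k E E) {x : Fin r → Ω} {y : Fin D → Ω}
    {xE : Fin r → E} {yE : Fin D → E} (hx : ∀ i, (xE i : Ω) = x i) (hy : ∀ j, (yE j : Ω) = y j) :
    JM E δ x y = (ALL83.Jm δ xE yE).map (algebraMap E Ω) := by
  ext i b
  rw [Matrix.map_apply]
  rcases i with i | j
  · change (x i)⁻¹ * extD E (δ b) (x i) = (((xE i)⁻¹ * δ b (xE i) : E) : Ω)
    rw [← hx, ALLh85.extD_apply]
    rfl
  · change extD E (δ b) (y j) = ((δ b (yE j) : E) : Ω)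
    rw [← hy, ALLh85.extD_apply]

theorem det_JM_eq (δ : Fin r ⊕ Fin D → Derivation k E E) {x : Fin r → Ω} {y : Fin D → Ω}
    {xE : Fin r → E} {yE : Fin D → E} (hx : ∀ i, (xE i : Ω) = x i) (hy : ∀ j, (yE j : Ω) = y j) :
    (JM E δ x y).det = (((ALL83.Jm δ xE yE).det : E) : Ω) := by
  rw [JM_eq δ hx hy]
  exact (RingHom.map_det (algebraMap E Ω) (ALL83.Jm δ xE yE)).symm

/-- R1: the dual derivations of `(dlog x, dy)`. -/
theorem exists_dual (A : AD k (Fin r ⊕ Fin D) E) (x : Fin r → Ω)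
    (y : Fin D → Ω) (hx : ∀ i, x i ∈ E ∧ x i ≠ 0) (hy : ∀ j, y j ∈ E)
    (hdet : (JM E A.δ x y).det ≠ 0) :
    ∃ δ' : Fin r ⊕ Fin D → Derivation k E E, DualD E x y δ' ∧
      ∀ B : Subalgebra k Ω, B ≤ E.toSubalgebra → (∀ b, ∀ g ∈ B, extD E (A.δ b) g ∈ B) →
        (∀ i, x i ∈ B ∧ (x i)⁻¹ ∈ B) → (∀ j, y j ∈ B) →
        ∀ a, ∀ g ∈ B, (JM E A.δ x y).det * extD E (δ' a) g ∈ B := by
  obtain ⟨xE, hxE⟩ : ∃ xE : Fin r → E, ∀ i, (xE i : Ω) = x i :=
    ⟨fun i => ⟨x i, (hx i).1⟩, fun _ => rfl⟩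
  obtain ⟨yE, hyE⟩ : ∃ yE : Fin D → E, ∀ i, (yE i : Ω) = y i :=
    ⟨fun i => ⟨y i, hy i⟩, fun _ => rfl⟩
  have hx0 : ∀ i, xE i ≠ 0 := fun i h' => (hx i).2 (by rw [← hxE, h']; rfl)
  have hdE := det_JM_eq A.δ hxE hyE
  have hdet' : (ALL83.Jm A.δ xE yE).det ≠ 0 := fun h' => hdet (by rw [hdE, h']; rfl)
  refine ⟨ALL83.dual A.δ xE yE, ⟨?_, ?_, ?_, ?_⟩, ?_⟩
  · intro i j
    rw [← hxE, ALLh85.extD_apply, ALL83.dual_x hx0 hdet']
    by_cases h : i = j
    · subst h; rw [if_pos rfl, if_pos rfl]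
    · rw [if_neg (fun h' => h (Sum.inl_injective h')), if_neg h]; rfl
  · intro i j
    rw [← hyE, ALLh85.extD_apply, ALL83.dual_y hdet', if_neg (by simp)]
    rfl
  · intro i j
    rw [← hxE, ALLh85.extD_apply, ALL83.dual_x hx0 hdet', if_neg (by simp)]
    rfl
  · intro i j
    rw [← hyE, ALLh85.extD_apply, ALL83.dual_y hdet']
    by_cases h : i = j
    · subst h; rw [if_pos rfl, if_pos rfl]; rfl
    · rw [if_neg (fun h' => h (Sum.inr_injective h')), if_neg h]; rfl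
  · intro B hBE hBδ hBx hBy a g hg
    obtain ⟨B', hB'⟩ : ∃ B' : Subalgebra k E, ∀ e : E, e ∈ B' ↔ (e : Ω) ∈ B :=
      ⟨B.comap E.val, fun e => Iff.rfl⟩
    obtain ⟨gE, rfl⟩ : ∃ gE : E, (gE : Ω) = g := ⟨⟨g, hBE hg⟩, rfl⟩
    have h1 := ALL83.det_mul_dual_mem hdet' B' (fun e z hz => by
        rw [hB']
        have h2 := hBδ e z ((hB' z).1 hz)
        rwa [ALLh85.extD_apply] at h2) (fun q => by rw [hB', hxE]; exact (hBx q).1)
      (fun q => by
        rw [hB']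
        change (xE q : Ω)⁻¹ ∈ B
        rw [hxE]; exact (hBx q).2)
      (fun i => by rw [hB', hyE]; exact hBy i) a ((hB' gE).2 hg)
    have h2 := (hB' _).1 h1
    rw [hdE, ALLh85.extD_apply]
    exact h2

theorem Qat_add (x : Fin r → Ω) (P Q : (Fin r → ℤ) →₀ Ω) (τ : Fin r → kˣ) :
    Qat x (P + Q) τ = Qat x P τ + Qat x Q τ := by
  classical
  unfold Qat
  refine Finsupp.sum_add_index' (fun l => ?_) fun l a b => ?_
  · rw [zero_mul, mul_zero]
  · ring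

theorem Qat_single (x : Fin r → Ω) (l : Fin r → ℤ) (q : Ω) (τ : Fin r → kˣ) :
    Qat x (Finsupp.single l q) τ = algebraMap k Ω (chr l τ)⁻¹ * (q * mx x l) := by
  unfold Qat
  rw [Finsupp.sum_single_index]
  rw [zero_mul, mul_zero]

theorem Qat_zero (x : Fin r → Ω) (τ : Fin r → kˣ) : Qat x 0 τ = 0 := by
  unfold Qat
  rw [Finsupp.sum_zero_index]

theorem Qat_sum (x : Fin r → Ω) {σ : Type*} (s : Finset σ) (P : σ → (Fin r → ℤ) →₀ Ω)
    (τ : Fin r → kˣ) : Qat x (∑ i ∈ s, P i) τ = ∑ i ∈ s, Qat x (P i) τ := by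
  classical
  induction s using Finset.induction_on with
  | empty => rw [Finset.sum_empty, Finset.sum_empty, Qat_zero]
  | insert i s hi ih => rw [Finset.sum_insert hi, Finset.sum_insert hi, Qat_add, ih]

theorem chr_neg_sum (a : Fin D → Fin r → ℤ) (τ : Fin r → kˣ) :
    (chr (k := k) (-∑ i, a i) τ)⁻¹ = ∏ i, chr (a i) τ := by
  have h1 : ∀ s : Finset (Fin D), chr (k := k) (∑ i ∈ s, a i) τ = ∏ i ∈ s, chr (a i) τ := by
    classical
    intro s
    induction s using Finset.induction_on with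
    | empty => rw [Finset.sum_empty, Finset.prod_empty, chr_apply]; simp
    | insert i s hi ih =>
      rw [Finset.sum_insert hi, Finset.prod_insert hi, ← ih, chr_apply, chr_apply, chr_apply,
        ← Units.val_mul, ← Finset.prod_mul_distrib]
      congr 1
      exact Finset.prod_congr rfl fun j _ => by rw [Pi.add_apply, zpow_add]
  rw [← h1, chr_apply, chr_apply, ← Units.val_inv_eq_inv_val]
  congr 1
  rw [← Finset.prod_inv_distrib]
  exact Finset.prod_congr rfl fun j _ => by rw [Pi.neg_apply, zpow_neg, inv_inv]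

/-- R4: the Jacobian is a monomial times an element of small degree. -/
theorem exists_Q (hp : p.Prime) [CharP k p] (A : AD k (Fin r ⊕ Fin D) E) {m : ℕ}
    (hm : (r + D) * A.c₀ ≤ m) {T : TD k v r ι} {f₀ : Ω} {α : Fin r → ι → ℤ} {S : Finset ι}
    (hT : TDm p A m T f₀ α S) :
    ∃ Qp : (Fin D → ι → k) → ((Fin r → ℤ) →₀ Ω),
      (∀ (c : Fin D → ι → k) (l : Fin r → ℤ),
        Qp c l ∈ span k (Set.range fun j => T.b j * mx T.x (T.a j)) ^ (r + D + 2 + r)) ∧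
      (∀ (c : Fin D → ι → k) (l : Fin r → ℤ), Qp c l ∈ E) ∧
      (∀ (c : Fin D → ι → k) (τ : Fin r → kˣ),
        Qat T.x (Qp c) τ = Qat T.x (Qp (ct T.a c τ)) (1 : Fin r → kˣ)) ∧
      ∀ c : Fin D → ι → k, (JM E A.δ T.x (yc T.b c)).det =
        (∏ s ∈ S, (T.b s * mx T.x (T.a s)))⁻¹ * f₀ * (A.h₀ ^ (r + D))⁻¹ *
          Qat T.x (Qp c) (1 : Fin r → kˣ) := by
  classical
  have hpf : Fact p.Prime := ⟨hp⟩
  have hxE : ∀ i, T.x i ∈ E := fun i => by
    rw [← hT.gen]; exact IntermediateField.subset_adjoin _ _ (Or.inl ⟨i, rfl⟩)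
  have hbE : ∀ j, T.b j ∈ E := fun j => by
    rw [← hT.gen]; exact IntermediateField.subset_adjoin _ _ (Or.inr ⟨j, rfl⟩)
  have hpowE : ∀ (c : ℕ), ∀ g ∈ A.V ^ c, g ∈ E := by
    intro c g hg
    have h1 : A.V ≤ Subalgebra.toSubmodule E.toSubalgebra := A.le
    have h2 : ∀ c : ℕ, A.V ^ c ≤ Subalgebra.toSubmodule E.toSubalgebra := by
      intro c
      induction c with
      | zero => rw [pow_zero]; exact Submodule.one_le.2 (one_mem E)
      | succ c ih =>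
        rw [pow_succ, Submodule.mul_le]
        exact fun a ha b hb => E.mul_mem (ih ha) (h1 hb)
    exact h2 c hg
  have hf₀E : f₀ ∈ E := hpowE m f₀ hT.f₀_mem
  have hh₀E : A.h₀ ∈ E := hpowE A.c₀ A.h₀ A.h₀_mem
  obtain ⟨Qco, hQP, hQE, hQ⟩ := ALL83.jac_TD (p := p) E A.le A.one_mem A.δ A.h₀_ne hh₀E
    (c₀ := A.c₀) (fun b z hz => by
      have h1 := A.hδ b z hz
      rwa [ALLh85.extD_apply] at h1) hm T hT.f₀_mem hT.f₀_ne hf₀E hT.span_eq hxE hbE hT.S_card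
    hT.α_S hT.x_eq
  rw [← hT.span_eq] at hQP
  obtain ⟨Qp, hQp⟩ : ∃ Qp : (Fin D → ι → k) → ((Fin r → ℤ) →₀ Ω), ∀ c, Qp c =
      ∑ l : Fin D → ι, Finsupp.single (-∑ i, T.a (l i))
        ((∏ i, algebraMap k Ω (c i (l i))) * Qco l) := ⟨_, fun _ => rfl⟩
  have hmem : ∀ (M : Submodule k Ω), (∀ l, Qco l ∈ M) → ∀ c l, Qp c l ∈ M := by
    intro M hM c l
    rw [hQp, Finsupp.finsetSum_apply]
    refine sum_mem fun l' _ => ?_
    rw [Finsupp.single_apply]
    split_ifs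
    · rw [← map_prod, ← Algebra.smul_def]
      exact smul_mem _ _ (hM l')
    · exact zero_mem _
  have hQat : ∀ c (τ : Fin r → kˣ), Qat T.x (Qp c) τ = ∑ l : Fin D → ι,
      algebraMap k Ω (∏ i, chr (T.a (l i)) τ) *
        (((∏ i, algebraMap k Ω (c i (l i))) * Qco l) * mx T.x (-∑ i, T.a (l i))) := by
    intro c τ
    rw [hQp, Qat_sum]
    refine Finset.sum_congr rfl fun l _ => ?_
    rw [Qat_single, chr_neg_sum]
  refine ⟨Qp, hmem _ hQP, hmem (Subalgebra.toSubmodule E.toSubalgebra) hQE, ?_, ?_⟩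
  · intro c τ
    rw [hQat, hQat]
    refine Finset.sum_congr rfl fun l _ => ?_
    have h1 : ∏ i, chr (T.a (l i)) (1 : Fin r → kˣ) = (1 : k) :=
      Finset.prod_eq_one fun i _ => by rw [map_one]
    rw [h1, map_one, one_mul]
    unfold ct
    simp only [map_mul, Finset.prod_mul_distrib, map_prod]
    ring
  · intro c
    have hycE : ∀ i, yc T.b c i ∈ E := by
      intro i
      unfold yc
      exact sum_mem fun j _ => E.smul_mem (E.sub_mem (hbE j) E.one_mem)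
    obtain ⟨yE, hyE⟩ : ∃ yE : Fin D → E, ∀ i, (yE i : Ω) = yc T.b c i :=
      ⟨fun i => ⟨_, hycE i⟩, fun _ => rfl⟩
    rw [det_JM_eq A.δ (xE := fun i => ⟨T.x i, hxE i⟩) (fun _ => rfl) hyE,
      hQ c yE (fun i => hyE i), hQat]
    congr 1
    refine Finset.sum_congr rfl fun l _ => ?_
    have h1 : ∏ i, chr (T.a (l i)) (1 : Fin r → kˣ) = (1 : k) :=
      Finset.prod_eq_one fun i _ => by rw [map_one]
    rw [h1, map_one, one_mul]

end Pool.Agent.ALL
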