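import Pool.Agent.Lib.ALLX.A23_h83

/-!
# PROJECT ALL, block X: `der_final`, `den_final`
-/

set_option autoImplicit false

namespace Pool.Agent.ALL

open Pool.Agent.H15JM (RVal)
open Pool.Agent.LU1 (VPos fixO locv FracIs)
open Pool.Agent.LU3 (Ctx0)
open Pool.Agent.TA
open Pool.Agent.ALLh85 (extD)
open Submodule Module

universe u

variable {k Ω : Type u} [Field k] [Field Ω] [Algebra k Ω] {v : RVal Ω} {n r D : ℕ} {p : ℕ}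
  {ι : Type} [Fintype ι] {E : IntermediateField k Ω}

/-- A2. -/
theorem der_final (h : CtxR k v n r) (_hn : n = r + D) (_halg : ∀ g : Ω, IsAlgebraic E g)
    {A : AD k (Fin r ⊕ Fin D) E} {m : ℕ} (hm : A.c₀ ≤ m) (_hm' : (r + D) * A.c₀ ≤ m)
    {T : TD k v r ι} {f₀ : Ω} {α : Fin r → ι → ℤ} {S : Finset ι} (hT : TDm p A m T f₀ α S)
    {s₀ : ℕ} {c : Fin D → ι → k} (hc : Good T A s₀ c) {F : FR k v D}
    (hF : FROf F T.x (yc T.b c)) (hA : Ainf k v T.x T.b ≤ ICl v F.R E) {q w : Ω} (_hq : q ∈ E)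
    (hdet : (JM E A.δ T.x (yc T.b c)).det =
        (∏ s ∈ S, (T.b s * mx T.x (T.a s)))⁻¹ * f₀ * (A.h₀ ^ (r + D))⁻¹ * q)
    (hw : w ∈ Axi k T.x T.b) (d : Derivation k E E) (hd : F.LogD d) (f : E)
    (hf : (f : Ω) ∈ ICl v F.R E) :
    ∃ γ ∈ F.Γ, F.χ γ * ((q * w) * (d f : Ω)) ∈ ICl v F.R E :=
  der_JM h.toCtx0 A hm hT hF hc.G2 hA (isMon_factor h.toCtx0 hm hT (r + D)) hdet (Axi_le T hw)
    d hd f hf

/-- A3. -/
theorem den_final (h : CtxR k v n r) (_hn : n = r + D) (_halg : ∀ g : Ω, IsAlgebraic E g)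
    (A : AD k (Fin r ⊕ Fin D) E) (Z : Finset Ω) (hZ : ∀ z ∈ Z, z ≠ 0)
    (hZE : IntermediateField.adjoin k (Z : Set Ω) = E) (p : ℕ) :
    ∃ m₁, ∀ m ≥ m₁, ∀ {ι : Type} [Fintype ι] (T : TD k v r ι) (f₀ : Ω) (α : Fin r → ι → ℤ)
      (S : Finset ι), TDm p A m T f₀ α S → ∀ (s₀ : ℕ) (c : Fin D → ι → k), Good T A s₀ c →
      ∀ F : FR k v D, FROf F T.x (yc T.b c) → Ainf k v T.x T.b ≤ ICl v F.R E →
      (∀ z ∈ Z, F.MonoIn (ICl v F.R E) z) ∧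
      ∀ f ∈ ICl v F.R E, ∃ a ∈ Algebra.adjoin k (Z : Set Ω),
        ∃ b ∈ Algebra.adjoin k (Z : Set Ω), F.MonoIn (ICl v F.R E) b ∧ f = a / b := by
  obtain ⟨m₁, hm₁⟩ := exists_den (p := p) h.toCtx0 A Z hZ hZE
  exact ⟨m₁, fun m hm ι _ T f₀ α S hT s₀ c _ F hF hA => hm₁ m hm T f₀ α S hT F c hF hA⟩

end Pool.Agent.ALL
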