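import Pool.Agent.Lib.ALL5.Fr
import Pool.Agent.Lib.LU1_h15.Base_G0
import Pool.Agent.Lib.TA.Cone

/-!
# ALLX, row R10: the rational frame given by coordinates `x_1, …, x_r, y_1, …, y_D`
-/

set_option autoImplicit false

namespace Pool.Agent.ALL

open Pool.Agent.H15JM (RVal)
open Pool.Agent.LU1 (VPos locv FracIs quo le_quo le_locv locv_inv locv_nonneg locv_field
  adjoin_field)
open Pool.Agent.LU1.BaseG0 (ph mo ch ch_ph ch_ne ch_add ch_val ph_single mo_single ph_apply)
open Pool.Agent.LU3 (MonD)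
open Pool.Agent.TA (mx v_mx mx_ne)

universe u

variable {k Ω : Type u} [Field k] [Field Ω] [Algebra k Ω] {v : RVal Ω} {n r D : ℕ}

/-- Values are rational combinations of the values of the `x i`. -/
theorem full_ph (h : TA.CtxR k v n r) {x : Fin r → Ω} (hx : ∀ i, x i ≠ 0)
    (hind : LinearIndependent ℚ fun i => v (x i)) (g : Ω) (hg : g ≠ 0) :
    ∃ m : ℕ, 0 < m ∧ (m : ℝ) * v g ∈ (ph v x).range := by
  classical
  obtain ⟨X, hX0, hXi, hX⟩ := h.rank
  have hle : Submodule.span ℚ (Set.range fun i => v (x i)) ≤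
      Submodule.span ℚ (Set.range fun i => v (X i)) := by
    rw [Submodule.span_le]
    rintro _ ⟨i, rfl⟩
    exact hX (x i) (hx i)
  have hfin : FiniteDimensional ℚ (Submodule.span ℚ (Set.range fun i => v (X i))) :=
    FiniteDimensional.span_of_finite ℚ (Set.finite_range _)
  have heq := Submodule.eq_of_le_of_finrank_eq hle (by
    rw [finrank_span_eq_card hind, finrank_span_eq_card hXi])
  have hmem : v g ∈ Submodule.span ℚ (Set.range fun i => v (x i)) := by
    rw [heq]
    exact hX g hg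
  obtain ⟨c, hc⟩ := (Submodule.mem_span_range_iff_exists_fun ℚ).1 hmem
  refine ⟨∏ i, (c i).den, Finset.prod_pos fun i _ => (c i).pos, ?_⟩
  refine ⟨fun i => (c i).num * ∏ j ∈ Finset.univ.erase i, ((c j).den : ℤ), ?_⟩
  rw [ph_apply, ← hc, Finset.mul_sum]
  refine Finset.sum_congr rfl fun i _ => ?_
  rw [Rat.smul_def, ← Finset.mul_prod_erase _ _ (Finset.mem_univ i), ← mul_assoc]
  congr 1
  have h1 : ((c i).num : ℝ) = (c i : ℝ) * (c i).den := by
    exact_mod_cast (Rat.mul_den_eq_num (c i)).symm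
  push_cast
  rw [h1]
  ring

/-- The ring of the rational frame given by `x`, `y`. -/
noncomputable def ratR (k : Type u) {Ω : Type u} [Field k] [Field Ω] [Algebra k Ω] (v : RVal Ω)
    (x : Fin r → Ω) (y : Fin D → Ω) : Subalgebra k Ω :=
  locv v (Algebra.adjoin k (ch v x '' {γ | γ ∈ (ph v x).range ∧ 0 ≤ γ} ∪ Set.range y))

theorem ratPre (h : TA.CtxR k v n r) (hr : 0 < r) {x : Fin r → Ω} {y : Fin D → Ω}
    (hx : ∀ i, x i ≠ 0) (hind : LinearIndependent ℚ fun i => v (x i))
    (hy : ∀ j, y j ≠ 0 ∧ 0 < v (y j)) :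
    Pre v (ph v x).range (ch v x) y (ratR k v x y) where
  pos := by
    have h0 : v (x ⟨0, hr⟩) ≠ 0 := hind.ne_zero ⟨0, hr⟩
    rcases lt_or_gt_of_ne h0 with h1 | h1
    · exact ⟨-v (x ⟨0, hr⟩), AddSubgroup.neg_mem _ ⟨_, ph_single x _⟩, by linarith⟩
    · exact ⟨v (x ⟨0, hr⟩), ⟨_, ph_single x _⟩, h1⟩
  mon := ⟨fun γ _ => ch_ne hx, fun γ hγ δ hδ => ch_add hx hind hγ hδ,
    fun γ hγ => ch_val hx hind hγ⟩
  y_ne := fun j => (hy j).1
  y_pos := fun j => (hy j).2
  nonneg := by
    refine locv_nonneg (ctx_adjoin_nonneg h ?_)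
    rintro _ (⟨γ, ⟨hγ, h0⟩, rfl⟩ | ⟨j, rfl⟩)
    · intro _
      rw [ch_val hx hind hγ]
      exact h0
    · exact fun _ => (hy j).2.le
  loc := fun f hf h0 h1 => locv_inv hf h0 h1
  χ_mem := fun γ hγ h0 => le_locv _ (Algebra.subset_adjoin (Or.inl ⟨γ, ⟨hγ, h0⟩, rfl⟩))
  y_mem := fun j => le_locv _ (Algebra.subset_adjoin (Or.inr ⟨j, rfl⟩))

theorem mx_eq_mo (x : Fin r → Ω) (l : Fin r → ℤ) : mx x l = mo x l := rfl

theorem ph_eq_v {x : Fin r → Ω} (hx : ∀ i, x i ≠ 0) (l : Fin r → ℤ) : ph v x l = v (mx x l) :=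
  (v_mx hx l).symm

/-- The field generated by the generators of the ring is `k(x, y)`. -/
theorem adjoin_rat {x : Fin r → Ω} {y : Fin D → Ω} (hx : ∀ i, x i ≠ 0)
    (hind : LinearIndependent ℚ fun i => v (x i)) :
    IntermediateField.adjoin k (ch v x '' {γ | γ ∈ (ph v x).range ∧ 0 ≤ γ} ∪ Set.range y) =
      IntermediateField.adjoin k (Set.range x ∪ Set.range y) := by
  apply le_antisymm
  · rw [IntermediateField.adjoin_le_iff]
    rintro f (⟨γ, -, rfl⟩ | hf)
    · rw [SetLike.mem_coe]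
      change (∏ i, x i ^ (Function.invFun (ph v x) γ) i) ∈
        IntermediateField.adjoin k (Set.range x ∪ Set.range y)
      refine prod_mem fun i _ => zpow_mem ?_ _
      exact IntermediateField.subset_adjoin _ _ (Or.inl ⟨i, rfl⟩)
    · exact IntermediateField.subset_adjoin _ _ (Or.inr hf)
  · rw [IntermediateField.adjoin_le_iff]
    rintro f (⟨i, rfl⟩ | hf)
    · have h1 : ∀ l : Fin r → ℤ, mx x l ∈ IntermediateField.adjoin k
          (ch v x '' {γ | γ ∈ (ph v x).range ∧ 0 ≤ γ} ∪ Set.range y) := by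
        intro l
        have h2 : ∀ l : Fin r → ℤ, 0 ≤ ph v x l → mx x l ∈ IntermediateField.adjoin k
            (ch v x '' {γ | γ ∈ (ph v x).range ∧ 0 ≤ γ} ∪ Set.range y) := by
          intro l hl
          refine IntermediateField.subset_adjoin _ _ (Or.inl ⟨ph v x l, ⟨⟨l, rfl⟩, hl⟩, ?_⟩)
          rw [ch_ph hind]
          rfl
        rcases le_total 0 (ph v x l) with h3 | h3
        · exact h2 l h3
        · have h4 := h2 (-l) (by rw [map_neg]; linarith)
          have h5 : mx x l = (mx x (-l))⁻¹ := by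
            refine eq_inv_of_mul_eq_one_left ?_
            rw [← TA.mx_add hx, add_neg_cancel, TA.mx_zero]
          rw [h5]
          exact inv_mem h4
      have h2 := h1 (Pi.single i 1)
      rwa [TA.mx_single, zpow_one] at h2
    · exact IntermediateField.subset_adjoin _ _ (Or.inr hf)

/-- The rational frame given by `x`, `y`. -/
noncomputable def ratFR (h : TA.CtxR k v n r) (hr : 0 < r) (x : Fin r → Ω) (y : Fin D → Ω)
    (hx : ∀ i, x i ≠ 0) (hind : LinearIndependent ℚ fun i => v (x i))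
    (hy : ∀ j, y j ≠ 0 ∧ 0 < v (y j))
    (halg : ∀ g : Ω, IsAlgebraic (IntermediateField.adjoin k (Set.range x ∪ Set.range y)) g) :
    FR k v D :=
  mkFR (ratPre h hr hx hind hy) (full_ph h hx hind)
    (by
      rw [← AddGroup.fg_iff_addSubgroup_fg]
      infer_instance)
    (S := ch v x '' {γ | γ ∈ (ph v x).range ∧ 0 ≤ γ} ∪ Set.range y) rfl
    (by
      have H := ratPre (k := k) h hr hx hind hy
      rintro _ (⟨γ, ⟨hγ, h0⟩, rfl⟩ | ⟨j, rfl⟩)
      · rcases h0.lt_or_eq with h1 | h1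
        · have h2 := H.mm_χ hγ h1 (one_mem (ratR k v x y))
          rw [mul_one] at h2
          exact H.res_of_mm h2
        · have h2 : ch v x γ = algebraMap k Ω 1 := by
            rw [← h1, map_one]
            exact H.mon.zero
          rw [h2]
          exact H.res_const 1
      · have h2 := H.mm_y j (one_mem (ratR k v x y))
        rw [mul_one] at h2
        exact H.res_of_mm h2)
    h.triv
    (by
      classical
      refine ⟨Finset.univ.image y, ?_⟩
      rw [ratR, Finset.coe_image, Finset.coe_univ, Set.image_univ, Set.union_comm])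
    (by
      intro g
      refine IsAlgebraic.tower_top_of_subalgebra_le (le_locv _) (LU1.BaseG0.alg_down _ g ?_)
      rw [adjoin_rat hx hind]
      exact halg g)

variable (h : TA.CtxR k v n r) (hr : 0 < r) {x : Fin r → Ω} {y : Fin D → Ω}
    (hx : ∀ i, x i ≠ 0) (hind : LinearIndependent ℚ fun i => v (x i))
    (hy : ∀ j, y j ≠ 0 ∧ 0 < v (y j))
    (halg : ∀ g : Ω, IsAlgebraic (IntermediateField.adjoin k (Set.range x ∪ Set.range y)) g)

theorem ratFR_R : (ratFR h hr x y hx hind hy halg).R = ratR k v x y := rfl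

theorem ratFR_y : (ratFR h hr x y hx hind hy halg).y = y := rfl

theorem ratFR_Γ {γ : ℝ} : γ ∈ (ratFR h hr x y hx hind hy halg).Γ ↔ ∃ l, γ = v (mx x l) := by
  constructor
  · rintro ⟨l, hl⟩
    exact ⟨l, by rw [← hl, ph_eq_v hx]⟩
  · rintro ⟨l, rfl⟩
    exact ⟨l, ph_eq_v hx l⟩

theorem ratFR_mem_Γ (l : Fin r → ℤ) : v (mx x l) ∈ (ratFR h hr x y hx hind hy halg).Γ :=
  (ratFR_Γ h hr hx hind hy halg).2 ⟨l, rfl⟩

theorem ratFR_χ (l : Fin r → ℤ) : (ratFR h hr x y hx hind hy halg).χ (v (mx x l)) = mx x l := by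
  change ch v x (v (mx x l)) = mx x l
  rw [← ph_eq_v hx, ch_ph hind]
  rfl

theorem ratFR_rat : (ratFR h hr x y hx hind hy halg).Rat := rfl

theorem ratFR_frac : FracIs (ratFR h hr x y hx hind hy halg).R
    (IntermediateField.adjoin k (Set.range x ∪ Set.range y)) := by
  rw [ratFR_R, LU1.fracIs_iff]
  constructor
  · refine locv_field (adjoin_field ?_)
    rw [← adjoin_rat (k := k) (y := y) hx hind]
    exact fun f hf => IntermediateField.subset_adjoin _ _ hf
  · rw [← adjoin_rat (k := k) (y := y) hx hind, IntermediateField.adjoin_le_iff]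
    exact fun f hf => le_quo (le_locv _ (Algebra.subset_adjoin hf))

/-- `x^l`, `v(x^l) ≥ 0`, lies in the ring. -/
theorem mx_mem_ratR {l : Fin r → ℤ} (hl : 0 ≤ v (mx x l)) :
    mx x l ∈ (ratFR h hr x y hx hind hy halg).R := by
  rw [← ratFR_χ h hr hx hind hy halg l]
  exact (ratFR h hr x y hx hind hy halg).χ_mem _ (ratFR_mem_Γ h hr hx hind hy halg l) hl

include h hr in
/-- R10: the rational frame given by `x`, `y`. -/
theorem exists_ratFR (x : Fin r → Ω) (y : Fin D → Ω) (hx : ∀ i, x i ≠ 0)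
    (hind : LinearIndependent ℚ fun i => v (x i)) (hy : ∀ j, y j ≠ 0 ∧ 0 < v (y j))
    (halg : ∀ g : Ω, IsAlgebraic (IntermediateField.adjoin k (Set.range x ∪ Set.range y)) g) :
    ∃ F : FR k v D, F.Rat ∧
      FracIs F.R (IntermediateField.adjoin k (Set.range x ∪ Set.range y)) ∧ F.y = y ∧
      (∀ γ, γ ∈ F.Γ ↔ ∃ l, γ = v (mx x l)) ∧ ∀ l, F.χ (v (mx x l)) = mx x l :=
  ⟨ratFR h hr x y hx hind hy halg, ratFR_rat h hr hx hind hy halg,
    ratFR_frac h hr hx hind hy halg, rfl, fun _ => ratFR_Γ h hr hx hind hy halg,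
    ratFR_χ h hr hx hind hy halg⟩

end Pool.Agent.ALL
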