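import Pool.Agent.Lib.ALLX.R0_h83
import Pool.Agent.Lib.ALB.Kaehler

/-!
# PROJECT ALL, block X, row R1b: the Jacobian criterion
-/

set_option autoImplicit false

namespace Pool.Agent.ALL

open Pool.Agent.H15JM (RVal)
open Pool.Agent.TA
open Pool.Agent.ALLh85 (extD)
open Submodule Module KaehlerDifferential

universe u

variable {k Ω : Type u} [Field k] [Field Ω] [Algebra k Ω] {v : RVal Ω} {n r D : ℕ} {p : ℕ}
  {ι : Type} [Fintype ι] {E : IntermediateField k Ω}

/-- Separability passes from the image in the big field to the subfield. -/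
theorem sub_of_isSeparable {S : Set E} (h : ∀ g ∈ E,
    IsSeparable (IntermediateField.adjoin k ((fun e : E => (e : Ω)) '' S)) g) :
    Algebra.IsSeparable (IntermediateField.adjoin k S) E := by
  refine ⟨fun e => ?_⟩
  have h0 := h e e.2
  obtain ⟨F, hF⟩ : ∃ F, F = IntermediateField.adjoin k S := ⟨_, rfl⟩
  obtain ⟨F', hF'⟩ : ∃ F', F' = IntermediateField.adjoin k ((fun e : E => (e : Ω)) '' S) :=
    ⟨_, rfl⟩
  rw [← hF]
  rw [← hF'] at h0
  have hmap : F.map E.val = F' := by
    rw [hF, hF', IntermediateField.adjoin_map]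
    rfl
  have hE : ∀ f ∈ F', f ∈ E := by
    intro f hf
    rw [← hmap] at hf
    obtain ⟨g, _, rfl⟩ := hf
    exact g.2
  have hFF : ∀ (f : Ω) (hf : f ∈ F'), (⟨f, hE f hf⟩ : E) ∈ F := by
    intro f hf
    have h1 := hf
    rw [← hmap] at h1
    obtain ⟨g, hg, hgf⟩ := h1
    have h2 : g = (⟨f, hE f hf⟩ : E) := Subtype.ext hgf
    rw [← h2]
    exact hg
  obtain ⟨φ, hφ⟩ : ∃ φ : F' →+* F, ∀ f : F', (((φ f : F) : E) : Ω) = (f : Ω) :=
    ⟨{ toFun := fun f => ⟨⟨(f : Ω), hE f f.2⟩, hFF f f.2⟩
       map_one' := rfl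
       map_mul' := fun _ _ => rfl
       map_zero' := rfl
       map_add' := fun _ _ => rfl }, fun _ => rfl⟩
  have h3 : ((minpoly F' (e : Ω)).map φ).Separable := by
    have h4 : (minpoly F' (e : Ω)).Separable := h0
    exact h4.map
  refine Polynomial.Separable.of_dvd h3 (minpoly.dvd _ _ ?_)
  rw [Polynomial.aeval_def, Polynomial.eval₂_map]
  apply (algebraMap E Ω).injective
  rw [map_zero, Polynomial.hom_eval₂]
  have h5 : (algebraMap E Ω).comp ((algebraMap F E).comp φ) = algebraMap F' Ω := by
    ext f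
    exact hφ f
  rw [h5]
  exact minpoly.aeval F' (e : Ω)

/-- The affine data make the field essentially of finite type. -/
theorem AD.essFinite {κ : Type} [DecidableEq κ] (A : AD k κ E) : Algebra.EssFiniteType k E := by
  rw [IntermediateField.essFiniteType_iff]
  haveI := A.fin
  obtain ⟨s, hs⟩ := (Submodule.fg_iff_finiteDimensional A.V).2 inferInstance
  refine ⟨s, ?_⟩
  rw [← A.gen]
  apply le_antisymm
  · rw [IntermediateField.adjoin_le_iff]
    intro g hg
    exact IntermediateField.subset_adjoin k _ (by rw [← hs]; exact subset_span hg)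
  · rw [IntermediateField.adjoin_le_iff]
    intro g hg
    have h1 : g ∈ span k (s : Set Ω) := by rw [hs]; exact hg
    have h2 : span k (s : Set Ω) ≤
        Subalgebra.toSubmodule (IntermediateField.adjoin k (s : Set Ω)).toSubalgebra := by
      rw [span_le]
      exact IntermediateField.subset_adjoin k _
    exact h2 h1

/-- R1b: the Jacobian criterion. -/
theorem sep_iff_det_of (A : AD k (Fin r ⊕ Fin D) E) (x : Fin r → Ω)
    (y : Fin D → Ω) (hx : ∀ i, x i ∈ E ∧ x i ≠ 0) (hy : ∀ j, y j ∈ E) :
    (JM E A.δ x y).det ≠ 0 ↔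
      ∀ g ∈ E, IsSeparable (IntermediateField.adjoin k (Set.range x ∪ Set.range y)) g := by
  classical
  haveI hess : Algebra.EssFiniteType k E := A.essFinite
  obtain ⟨X, hX⟩ : ∃ X : Fin r → E, ∀ i, (X i : Ω) = x i := ⟨fun i => ⟨x i, (hx i).1⟩, fun _ => rfl⟩
  obtain ⟨Y, hY⟩ : ∃ Y : Fin D → E, ∀ i, (Y i : Ω) = y i := ⟨fun i => ⟨y i, hy i⟩, fun _ => rfl⟩
  obtain ⟨t, ht⟩ : ∃ t : Fin r ⊕ Fin D → E, ∀ i, (t i : Ω) = A.t i :=
    ⟨fun i => ⟨A.t i, A.le _ (A.t_mem i)⟩, fun _ => rfl⟩
  have hX0 : ∀ i, X i ≠ 0 := by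
    intro i h0
    apply (hx i).2
    rw [← hX, h0]
    rfl
  obtain ⟨η, hη⟩ : ∃ η : Fin r ⊕ Fin D → Ω[E⁄k],
      η = Sum.elim (fun i => (X i)⁻¹ • KaehlerDifferential.D k E (X i))
        (fun j => KaehlerDifferential.D k E (Y j)) := ⟨_, rfl⟩
  obtain ⟨L, hL⟩ : ∃ L : Fin r ⊕ Fin D → (Ω[E⁄k] →ₗ[E] E), ∀ b g,
      L b (KaehlerDifferential.D k E g) = A.δ b g :=
    ⟨fun b => (A.δ b).liftKaehlerDifferential, fun b g =>
      (A.δ b).liftKaehlerDifferential_comp_D g⟩
  obtain ⟨M, hM⟩ : ∃ M : Matrix (Fin r ⊕ Fin D) (Fin r ⊕ Fin D) E,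
      M = Matrix.of fun a b => L b (η a) := ⟨_, rfl⟩
  have hdet : (JM E A.δ x y).det = ((M.det : E) : Ω) := by
    have h5 := RingHom.map_det (algebraMap E Ω) M
    have h6 : (algebraMap E Ω).mapMatrix M = JM E A.δ x y := by
      ext a b
      rw [hM]
      simp only [RingHom.mapMatrix_apply, Matrix.map_apply, Matrix.of_apply, JM, hη]
      rcases a with i | j
      · simp only [Sum.elim_inl]
        rw [map_smul, hL, smul_eq_mul, map_mul, map_inv₀]
        have h7 := ALLh85.extD_apply E (A.δ b) (X i)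
        rw [hX] at h7
        rw [h7]
        have h8 : algebraMap E Ω (X i) = x i := hX i
        rw [h8]
        rfl
      · simp only [Sum.elim_inr]
        rw [hL]
        have h7 := ALLh85.extD_apply E (A.δ b) (Y j)
        rw [hY] at h7
        rw [h7]
        rfl
    rw [h6] at h5
    exact h5.symm
  have hdet0 : (JM E A.δ x y).det ≠ 0 ↔ M.det ≠ 0 := by
    rw [hdet, Ne, Ne, not_iff_not]
    constructor
    · intro h0
      exact Subtype.ext h0
    · intro h0
      rw [h0]
      rfl
  rw [hdet0]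
  -- the images of the sets
  have himg : (fun e : E => (e : Ω)) '' (Set.range X ∪ Set.range Y) =
      Set.range x ∪ Set.range y := by
    rw [Set.image_union, ← Set.range_comp, ← Set.range_comp]
    congr 1
    · congr 1
      funext i
      exact hX i
    · congr 1
      funext i
      exact hY i
  have himgt : (fun e : E => (e : Ω)) '' (Set.range t) = Set.range A.t := by
    rw [← Set.range_comp]
    congr 1
    funext i
    exact ht i
  -- the span of `η`
  have hspan : span E (Set.range η) =
      span E (KaehlerDifferential.D k E '' (Set.range X ∪ Set.range Y)) := by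
    apply le_antisymm
    · rw [span_le]
      rintro _ ⟨a, rfl⟩
      rw [hη]
      rcases a with i | j
      · simp only [Sum.elim_inl]
        exact smul_mem _ _ (subset_span ⟨X i, Or.inl ⟨i, rfl⟩, rfl⟩)
      · simp only [Sum.elim_inr]
        exact subset_span ⟨Y j, Or.inr ⟨j, rfl⟩, rfl⟩
    · rw [span_le]
      rintro _ ⟨g, hg, rfl⟩
      rcases hg with ⟨i, rfl⟩ | ⟨j, rfl⟩
      · have h1 : η (Sum.inl i) ∈ span E (Set.range η) := subset_span ⟨_, rfl⟩
        have h2 : KaehlerDifferential.D k E (X i) = X i • η (Sum.inl i) := by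
          rw [hη, Sum.elim_inl, smul_smul, mul_inv_cancel₀ (hX0 i), one_smul]
        rw [SetLike.mem_coe, h2]
        exact smul_mem _ _ h1
      · have h1 : η (Sum.inr j) ∈ span E (Set.range η) := subset_span ⟨_, rfl⟩
        rw [hη, Sum.elim_inr] at h1
        rw [hη]
        exact h1
  -- the differentials of `t` span
  have htspan : span E (Set.range fun a => KaehlerDifferential.D k E (t a)) = ⊤ := by
    have h1 : Algebra.IsSeparable (IntermediateField.adjoin k (Set.range t)) E := by
      apply sub_of_isSeparable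
      rw [himgt]
      exact A.sep
    have h2 := ALB.span_D_of_separable (Set.range t) h1
    rw [← Set.range_comp] at h2
    exact h2
  have hfin : FiniteDimensional E Ω[E⁄k] := inferInstance
  have hle : finrank E Ω[E⁄k] ≤ Fintype.card (Fin r ⊕ Fin D) := finrank_le_of_span_eq_top htspan
  constructor
  · intro hne
    have hind : LinearIndependent E η := by
      rw [Fintype.linearIndependent_iff]
      intro c hc
      have h1 : Matrix.vecMul c M = 0 := by
        funext b
        have h2 := congrArg (L b) hc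
        rw [map_sum, map_zero] at h2
        rw [hM]
        simp only [Matrix.vecMul, dotProduct, Matrix.of_apply, Pi.zero_apply]
        rw [← h2]
        refine Finset.sum_congr rfl fun a _ => ?_
        rw [map_smul, smul_eq_mul]
      have h3 := Matrix.eq_zero_of_vecMul_eq_zero hne h1
      intro a
      exact congrFun h3 a
    have hcard : Fintype.card (Fin r ⊕ Fin D) = finrank E Ω[E⁄k] :=
      le_antisymm hind.fintype_card_le_finrank hle
    have htop := hind.span_eq_top_of_card_eq_finrank' hcard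
    rw [hspan] at htop
    have hsep := ALB.separable_of_span_D (Set.range X ∪ Set.range Y) htop
    intro g hg
    have h4 := isSeparable_of_sub hsep hg
    rw [himg] at h4
    exact h4
  · intro hsep h0
    have hsep' : Algebra.IsSeparable
        (IntermediateField.adjoin k (Set.range X ∪ Set.range Y)) E := by
      apply sub_of_isSeparable
      rw [himg]
      exact hsep
    have htop := ALB.span_D_of_separable _ hsep'
    rw [← hspan] at htop
    obtain ⟨c, hc0, hc⟩ := Matrix.exists_mulVec_eq_zero_iff.2 h0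
    apply hc0
    obtain ⟨Λ, hΛ⟩ : ∃ Λ : Ω[E⁄k] →ₗ[E] E, Λ = ∑ b, c b • L b := ⟨_, rfl⟩
    have hΛη : ∀ a, Λ (η a) = 0 := by
      intro a
      have h1 := congrFun hc a
      rw [hM] at h1
      simp only [Matrix.mulVec, dotProduct, Matrix.of_apply, Pi.zero_apply] at h1
      rw [hΛ, LinearMap.sum_apply, ← h1]
      refine Finset.sum_congr rfl fun b _ => ?_
      rw [LinearMap.smul_apply, smul_eq_mul, mul_comm]
    have hΛ0 : Λ = 0 := by
      apply LinearMap.ext
      intro w
      have hw : w ∈ span E (Set.range η) := by rw [htop]; trivial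
      have hker : span E (Set.range η) ≤ LinearMap.ker Λ := by
        rw [span_le]
        rintro _ ⟨a, rfl⟩
        exact hΛη a
      exact hker hw
    funext a
    have h2 : Λ (KaehlerDifferential.D k E (t a)) = 0 := by rw [hΛ0]; rfl
    rw [hΛ, LinearMap.sum_apply] at h2
    have h3 : ∀ b, (c b • L b) (KaehlerDifferential.D k E (t a)) =
        if a = b then c b else 0 := by
      intro b
      rw [LinearMap.smul_apply, hL, smul_eq_mul]
      have h4 := ALLh85.extD_apply E (A.δ b) (t a)
      rw [ht, A.δ_t] at h4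
      by_cases hab : a = b
      · rw [if_pos hab] at h4 ⊢
        have h5 : A.δ b (t a) = 1 := Subtype.ext h4.symm
        rw [h5, mul_one]
      · rw [if_neg hab] at h4 ⊢
        have h5 : A.δ b (t a) = 0 := Subtype.ext h4.symm
        rw [h5, mul_zero]
    rw [Finset.sum_congr rfl fun b _ => h3 b, Finset.sum_ite_eq, if_pos (Finset.mem_univ _)] at h2
    exact h2

/-- R1b: the Jacobian criterion. -/
theorem sep_iff_det (_h : CtxR k v n r) (_hn : n = r + D)
    (_halg : ∀ g : Ω, IsAlgebraic E g) (A : AD k (Fin r ⊕ Fin D) E) (x : Fin r → Ω)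
    (y : Fin D → Ω) (hx : ∀ i, x i ∈ E ∧ x i ≠ 0) (hy : ∀ j, y j ∈ E) :
    (JM E A.δ x y).det ≠ 0 ↔
      ∀ g ∈ E, IsSeparable (IntermediateField.adjoin k (Set.range x ∪ Set.range y)) g :=
  sep_iff_det_of A x y hx hy

end Pool.Agent.ALL
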