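import Pool.Agent.Lib.ALLX.XDefs
import Pool.Agent.Lib.ALL_h83.LogSup

/-!
# PROJECT ALL, block X, row R2: toric data for `V^m` with small logarithmic support
-/

set_option autoImplicit false

namespace Pool.Agent.ALL

open Pool.Agent.H15JM (RVal)
open Pool.Agent.LU1 (VPos fixO locv FracIs)
open Pool.Agent.LU3 (Ctx0)
open Pool.Agent.TA
open Submodule Module

universe u

variable {k Ω : Type u} [Field k] [Field Ω] [Algebra k Ω] {v : RVal Ω} {n r D : ℕ} {p : ℕ}
  {E : IntermediateField k Ω}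

private theorem pow_le_pow_of_one_mem {V : Submodule k Ω} (hV : (1 : Ω) ∈ V) {a b : ℕ}
    (hab : a ≤ b) : V ^ a ≤ V ^ b := by
  have h1 : (1 : Submodule k Ω) ≤ V := one_le.2 hV
  have hmono : Monotone fun t : ℕ => V ^ t := by
    refine monotone_nat_of_le_succ fun t => ?_
    calc V ^ t = V ^ t * 1 := (mul_one _).symm
      _ ≤ V ^ t * V := mul_le_mul' le_rfl h1
      _ = V ^ (t + 1) := (pow_succ _ _).symm
  exact hmono hab

private theorem pow_le_field {V : Submodule k Ω} (hV : ∀ g ∈ V, g ∈ E) (m : ℕ) :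
    ∀ g ∈ V ^ m, g ∈ E := by
  have h1 : V ^ m ≤ E.toSubalgebra.toSubmodule := by
    induction m with
    | zero =>
      rw [pow_zero, Submodule.one_le]
      exact E.toSubalgebra.one_mem
    | succ m ih =>
      rw [pow_succ]
      exact Submodule.mul_le.2 fun a ha b hb => E.toSubalgebra.mul_mem (ih ha) (hV b hb)
  exact fun g hg => h1 hg

/-- R2: toric data for `V^m`, with small support. -/
theorem exists_TDm (hp : p.Prime) (hp3 : 3 ≤ p) [CharP k p] (h : CtxR k v n r) [IsAlgClosed k]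
    (hfg : ∃ S : Finset Ω, E = IntermediateField.adjoin k (S : Set Ω))
    (halg : ∀ g : Ω, IsAlgebraic E g) (A : AD k (Fin r ⊕ Fin D) E) :
    ∃ m₀, ∀ m ≥ m₀, ∃ (T : TD k v r (Fin (finrank k ↥(A.V ^ m)))) (f₀ : Ω)
      (α : Fin r → Fin (finrank k ↥(A.V ^ m)) → ℤ) (S : Finset (Fin (finrank k ↥(A.V ^ m)))),
      TDm p A m T f₀ α S := by
  have hpf : Fact p.Prime := ⟨hp⟩
  have hfin : FiniteDimensional k A.V := A.fin
  have hsup : 1 ⊔ A.V = A.V := sup_eq_right.2 (one_le.2 A.one_mem)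
  obtain ⟨m₀, c, d, hcd, hli⟩ := exists_rank h E A.V A.gen halg
  rw [hsup] at hcd
  refine ⟨max m₀ 1, fun m hm => ?_⟩
  have hm0 : m₀ ≤ m := (le_max_left _ _).trans hm
  have hm1 : 1 ≤ m := (le_max_right _ _).trans hm
  have hfd : FiniteDimensional k ↥(A.V ^ m) :=
    Module.Finite.iff_fg.2 (Submodule.FG.pow (Module.Finite.iff_fg.1 hfin) m)
  have h1 : (1 : Ω) ∈ A.V ^ m := by
    have := pow_le_pow_of_one_mem A.one_mem (Nat.zero_le m)
    rw [pow_zero] at this
    exact this (Submodule.one_le.1 le_rfl)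
  have hgen : IntermediateField.adjoin k ((A.V ^ m : Submodule k Ω) : Set Ω) = E := by
    apply le_antisymm
    · rw [IntermediateField.adjoin_le_iff]
      exact pow_le_field A.le m
    · have h2 : A.V ≤ A.V ^ m := by
        have := pow_le_pow_of_one_mem A.one_mem hm1
        rwa [pow_one] at this
      have h3 := IntermediateField.adjoin.mono k (A.V : Set Ω) ((A.V ^ m : Submodule k Ω) : Set Ω)
        h2
      rw [A.gen] at h3
      exact h3
  have hle := pow_le_pow_of_one_mem A.one_mem hm0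
  obtain ⟨T, f₀, hf₀, hf₀0, hspan, hTE, hdx, α, S, hS, hαS, hαa, hαb, hx⟩ :=
    ALL83.exists_TD_small (p := p) hp3 h E hfg halg (A.V ^ m) h1 hgen
      ⟨c, d, fun i => ⟨hle (hcd i).1, (hcd i).2.1, hle (hcd i).2.2.1, (hcd i).2.2.2⟩, hli⟩
  exact ⟨T, f₀, α, S,
    { card := Fintype.card_fin _
      f₀_mem := hf₀
      f₀_ne := hf₀0
      span_eq := hspan
      gen := hTE
      S_card := hS
      α_S := hαS
      x_eq := hx
      α_a := hαa
      α_b := hαb
      dx := hdx }⟩

end Pool.Agent.ALL
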