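import Pool.Agent.Lib.ALLX.XDefs
import Pool.Agent.Lib.ALL.GoodOpen

/-!
# PROJECT ALL, block X, row R3b: goodness is open along the torus
-/

set_option autoImplicit false

namespace Pool.Agent.ALL

open Pool.Agent.H15JM (RVal)
open Pool.Agent.LU1 (VPos)
open Pool.Agent.LU3 (Ctx0)
open Pool.Agent.TA
open Pool.Agent.AD78 (evA evT coordA evA_coordA evT_apply)
open Pool.Agent.ALLh85 (extD extD_apply)
open Submodule Module

universe u

variable {k Ω : Type u} [Field k] [Field Ω] [Algebra k Ω] {v : RVal Ω} {n r D : ℕ}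
  {ι : Type} [Fintype ι] {E : IntermediateField k Ω}

/-- A non-zero Laurent vector does not vanish for general `τ`. -/
theorem laurent_open {V : Type*} [AddCommGroup V] [Module k V] (F : (Fin r → ℤ) →₀ V)
    (h : evT (k := k) 1 F ≠ 0) :
    ∃ Δ : AddMonoidAlgebra k (Fin r → ℤ), evA 1 Δ ≠ 0 ∧ ∀ τ : Fin r → kˣ, evA τ Δ ≠ 0 →
      evT (k := k) τ F ≠ 0 := by
  obtain ⟨φ, hφ⟩ : ∃ φ : V →ₗ[k] k, φ (evT (k := k) 1 F) ≠ 0 := by
    by_contra hcon
    push Not at hcon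
    exact h ((Module.forall_dual_apply_eq_zero_iff k _).1 hcon)
  refine ⟨coordA φ F, ?_, fun τ hτ h0 => hτ ?_⟩
  · rw [evA_coordA]
    exact hφ
  · rw [evA_coordA, h0, map_zero]

/-- The covering condition (G1) is open along the torus, for any `J`. -/
theorem cover_open (b : ι → Ω) (a : ι → Fin r → ℤ) (s₀ : ℕ) (c : Fin D → ι → k)
    (J : Submodule k Ω)
    (h : Wb k b ^ (s₀ + 1) ≤ span k (Set.range (yc b c)) * Wb k b ^ s₀ ⊔ J) :
    ∃ Δ : AddMonoidAlgebra k (Fin r → ℤ), evA 1 Δ ≠ 0 ∧ ∀ τ : Fin r → kˣ, evA τ Δ ≠ 0 →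
      Wb k b ^ (s₀ + 1) ≤ span k (Set.range (yc b (ct a c τ))) * Wb k b ^ s₀ ⊔ J := by
  classical
  have hfg : ∀ t, (Wb k b ^ t).FG := fun t => by
    have h1 : (Wb k b).FG := Submodule.fg_span (Set.finite_range _)
    exact h1.pow t
  have hfin : FiniteDimensional k ((Wb k b ^ (s₀ + 1)).map J.mkQ) :=
    Module.Finite.iff_fg.mpr ((hfg _).map _)
  obtain ⟨S, hS⟩ := hfg s₀
  let F : (Fin D × S) → ((Fin r → ℤ) →₀ Ω) := fun m =>
    ∑ j, Finsupp.single (a j) (c m.1 j • ((b j - 1) * (m.2 : Ω)))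
  have hev : ∀ (τ : Fin r → kˣ) m, evT (k := k) τ (F m) = yc b (ct a c τ) m.1 * (m.2 : Ω) := by
    intro τ m
    rw [map_sum, yc, Finset.sum_mul]
    refine Finset.sum_congr rfl fun j _ => ?_
    rw [evT_apply, Finsupp.sum_single_index]
    · rw [ct, smul_mul_assoc, smul_smul, mul_comm (c m.1 j)]
    · exact smul_zero _
  have hspan : ∀ τ : Fin r → kˣ, span k (Set.range fun m => evT (k := k) τ (F m)) =
      span k (Set.range (yc b (ct a c τ))) * Wb k b ^ s₀ := by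
    intro τ
    rw [← hS, Submodule.span_mul_span]
    congr 1
    ext z
    constructor
    · rintro ⟨m, rfl⟩
      exact ⟨_, ⟨m.1, rfl⟩, _, m.2.2, (hev τ m).symm⟩
    · rintro ⟨_, ⟨i, rfl⟩, w, hw, rfl⟩
      exact ⟨(i, ⟨w, hw⟩), hev τ _⟩
  obtain ⟨Δ, hΔ, hΔ2⟩ := open_span (k := k) F (Wb k b ^ (s₀ + 1)) J (by
    intro m l
    refine mem_sup_left ?_
    show (∑ j, Finsupp.single (a j) (c m.1 j • ((b j - 1) * (m.2 : Ω))) : (Fin r → ℤ) →₀ Ω) l ∈ _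
    rw [Finsupp.finsetSum_apply]
    refine sum_mem fun j _ => ?_
    rw [Finsupp.single_apply]
    split_ifs
    · refine smul_mem _ _ ?_
      rw [pow_succ']
      refine Submodule.mul_mem_mul (subset_span ⟨j, rfl⟩) ?_
      rw [← hS]
      exact subset_span m.2.2
    · exact zero_mem _) (by
    rw [hspan 1, ct_one]
    exact h)
  refine ⟨Δ, hΔ, fun τ hτ => ?_⟩
  have h2 := hΔ2 τ hτ
  rw [hspan τ] at h2
  exact h2

theorem GG1_open (x : Fin r → Ω) (b : ι → Ω) (a : ι → Fin r → ℤ) (s₀ : ℕ) (c : Fin D → ι → k)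
    (h : GG1 k v x b (yc b c) s₀) :
    ∃ Δ : AddMonoidAlgebra k (Fin r → ℤ), evA 1 Δ ≠ 0 ∧ ∀ τ : Fin r → kˣ, evA τ Δ ≠ 0 →
      GG1 k v x b (yc b (ct a c τ)) s₀ := by
  obtain ⟨Δ, h1, h2⟩ := cover_open b a s₀ c ((Is (k := k) v x b ⊓ (Ab k b).toSubmodule) ⊔
      Wb k b ^ (s₀ + 2) * (Ab k b).toSubmodule) (by
    unfold GG1 at h
    rw [sup_assoc] at h
    exact h)
  refine ⟨Δ, h1, fun τ hτ => ?_⟩
  unfold GG1
  rw [sup_assoc]
  exact h2 τ hτ

/-! ## (G2) -/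

section G2

/-- The evaluation of Laurent polynomials with coefficients in `Ω`. -/
noncomputable def evO (Ω : Type u) [Field Ω] [Algebra k Ω] (τ : Fin r → kˣ) :
    AddMonoidAlgebra Ω (Fin r → ℤ) →ₐ[Ω] Ω :=
  AddMonoidAlgebra.lift Ω Ω (Fin r → ℤ)
    ((algebraMap k Ω : k →* Ω).comp (AD78.chrM τ))

theorem evO_single (τ : Fin r → kˣ) (l : Fin r → ℤ) (w : Ω) :
    evO (k := k) Ω τ (AddMonoidAlgebra.single l w) = w * algebraMap k Ω (chr l τ) := by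
  rw [evO, AddMonoidAlgebra.lift_single]
  rfl

theorem evO_eq (τ : Fin r → kˣ) (P : AddMonoidAlgebra Ω (Fin r → ℤ)) :
    evO (k := k) Ω τ P = evT (k := k) τ P.coeff := by
  rw [evO, AddMonoidAlgebra.lift_apply, evT_apply]
  refine Finsupp.sum_congr fun l _ => ?_
  rw [smul_eq_mul, Algebra.smul_def, mul_comm]
  rfl

theorem extD_sum (E : IntermediateField k Ω) (d : Derivation k E E) (c : ι → k) (z : ι → Ω)
    (hz : ∀ j, z j ∈ E) : extD E d (∑ j, c j • z j) = ∑ j, c j • extD E d (z j) := by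
  have h1 : (∑ j, c j • z j) = ((∑ j, c j • (⟨z j, hz j⟩ : E) : E) : Ω) := by
    rw [AddSubmonoidClass.coe_finsetSum]
    rfl
  rw [h1, extD_apply, map_sum, AddSubmonoidClass.coe_finsetSum]
  refine Finset.sum_congr rfl fun j _ => ?_
  rw [Derivation.map_smul]
  have h2 := extD_apply E d ⟨z j, hz j⟩
  rw [h2]
  rfl

theorem JM_open (δ : Fin r ⊕ Fin D → Derivation k E E) (x : Fin r → Ω) (b : ι → Ω)
    (hb : ∀ j, b j ∈ E) (a : ι → Fin r → ℤ) (c : Fin D → ι → k)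
    (h : (JM E δ x (yc b c)).det ≠ 0) :
    ∃ Δ : AddMonoidAlgebra k (Fin r → ℤ), evA 1 Δ ≠ 0 ∧ ∀ τ : Fin r → kˣ, evA τ Δ ≠ 0 →
      (JM E δ x (yc b (ct a c τ))).det ≠ 0 := by
  classical
  let M : Matrix (Fin r ⊕ Fin D) (Fin r ⊕ Fin D) (AddMonoidAlgebra Ω (Fin r → ℤ)) :=
    Matrix.of (Sum.elim
      (fun i β => AddMonoidAlgebra.single 0 ((x i)⁻¹ * extD E (δ β) (x i)))
      fun j β => ∑ l, AddMonoidAlgebra.single (a l) (c j l • extD E (δ β) (b l - 1)))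
  have hM : ∀ τ : Fin r → kˣ, (evO (k := k) Ω τ).mapMatrix M =
      JM E δ x (yc b (ct a c τ)) := by
    intro τ
    ext i β
    rw [AlgHom.mapMatrix_apply, Matrix.map_apply]
    rcases i with i | j
    · show evO (k := k) Ω τ (AddMonoidAlgebra.single 0 ((x i)⁻¹ * extD E (δ β) (x i))) =
        (x i)⁻¹ * extD E (δ β) (x i)
      rw [evO_single, chr_apply]
      simp
    · show evO (k := k) Ω τ (∑ l, AddMonoidAlgebra.single (a l)
        (c j l • extD E (δ β) (b l - 1))) = extD E (δ β) (∑ l, ct a c τ j l • (b l - 1))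
      rw [map_sum, extD_sum E (δ β) _ _ fun l => sub_mem (hb l) (one_mem _)]
      refine Finset.sum_congr rfl fun l _ => ?_
      rw [evO_single, ct, Algebra.smul_def, Algebra.smul_def, map_mul]
      ring
  have hdet : ∀ τ : Fin r → kˣ, evT (k := k) τ (M.det).coeff =
      (JM E δ x (yc b (ct a c τ))).det := by
    intro τ
    rw [← evO_eq, AlgHom.map_det, hM]
  obtain ⟨Δ, h1, h2⟩ := laurent_open (k := k) (M.det).coeff (by
    rw [hdet, ct_one]; exact h)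
  exact ⟨Δ, h1, fun τ hτ => by rw [← hdet]; exact h2 τ hτ⟩

end G2

/-- R3b with `Δ(1) ≠ 0`. -/
theorem good_open' (T : TD k v r ι) (A : AD k (Fin r ⊕ Fin D) E)
    (hbE : ∀ j, T.b j ∈ E) {s₀ : ℕ} {c : Fin D → ι → k} (hc : Good T A s₀ c) :
    ∃ Δ : AddMonoidAlgebra k (Fin r → ℤ), evA 1 Δ ≠ 0 ∧ ∀ τ : Fin r → kˣ, evA τ Δ ≠ 0 →
      Good T A s₀ (ct T.a c τ) := by
  obtain ⟨Δ₁, h1, h1'⟩ := GG1_open T.x T.b T.a s₀ c hc.G1
  obtain ⟨Δ₂, h2, h2'⟩ := JM_open A.δ T.x T.b hbE T.a c hc.G2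
  refine ⟨Δ₁ * Δ₂, ?_, fun τ hτ => ?_⟩
  · rw [map_mul]
    exact mul_ne_zero h1 h2
  · rw [map_mul] at hτ
    exact ⟨h1' τ (left_ne_zero_of_mul hτ), h2' τ (right_ne_zero_of_mul hτ)⟩

/-- R3b: good is an open condition along the torus. -/
theorem good_open [Infinite k] (_h : Ctx0 k v n) (T : TD k v r ι) (A : AD k (Fin r ⊕ Fin D) E)
    (_hxE : ∀ i, T.x i ∈ E) (hbE : ∀ j, T.b j ∈ E) {s₀ : ℕ} {c : Fin D → ι → k}
    (hc : Good T A s₀ c) :
    ∃ Δ : AddMonoidAlgebra k (Fin r → ℤ), Δ ≠ 0 ∧ ∀ τ : Fin r → kˣ, evA τ Δ ≠ 0 →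
      Good T A s₀ (ct T.a c τ) := by
  obtain ⟨Δ, h1, h2⟩ := good_open' T A hbE hc
  refine ⟨Δ, ?_, h2⟩
  rintro rfl
  rw [map_zero] at h1
  exact h1 rfl

end Pool.Agent.ALL
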