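import Pool.Agent.Lib.ALLX.XDefs
import Pool.Agent.Lib.ALL_h28.DecP
import Pool.Agent.Lib.ALL.GrowLow
import Pool.Agent.Lib.ALL.Rho44

/-!
# PROJECT ALL, block X, rows R6a, R6b: Zariski's main theorem and the bound for the local degree
-/

set_option autoImplicit false

namespace Pool.Agent.ALL

open Pool.Agent.H15JM (RVal)
open Pool.Agent.LU1 (VPos fixO mem_fixO locv FracIs)
open Pool.Agent.LU3 (Ctx0)
open Pool.Agent.TA
open Pool.Agent.ALLh85 (extD)
open Submodule Module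

universe u

section

variable {k Ω : Type u} [Field k] [Field Ω] [Algebra k Ω] {v : RVal Ω} {n r D : ℕ} {p : ℕ}
  {ι : Type} [Fintype ι] {E : IntermediateField k Ω}

/-- (G1) for a positive cone. -/
theorem hrel_of_GG1 {T T' : TD k v r ι} (hb : T'.b = T.b)
    (hXA : ∀ g ∈ Ab k T.b, g ∈ Is (k := k) v T.x T.b → g ∈ XA k T'.x T'.b) {y : Fin D → Ω}
    {s₀ : ℕ} (hG : GG1 k v T.x T.b y s₀) :
    Wb k T'.b ^ (s₀ + 1) ≤ span k (Set.range y) * Wb k T'.b ^ s₀ ⊔ XA k T'.x T'.b ⊔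
        Wb k T'.b ^ (s₀ + 2) * (Ax k T'.x T'.b).toSubmodule := by
  unfold GG1 at hG
  rw [hb] at hXA ⊢
  refine hG.trans (sup_le_sup (sup_le_sup le_rfl ?_) (mul_le_mul' le_rfl ?_))
  · rintro g ⟨h1, h2⟩
    exact hXA g h2 h1
  · intro g hg
    exact Ab_le_Ax₅ T'.x T.b hg

theorem yc_mem {ι : Type} [Fintype ι] (b : ι → Ω) (c : Fin D → ι → k) (j : Fin D) :
    yc b c j ∈ Wb k b :=
  sum_mem fun i _ => smul_mem _ _ (subset_span ⟨i, rfl⟩)

theorem ICl_of_icl {R : Subalgebra k Ω} {E : IntermediateField k Ω} {f : Ω} (hf : f ∈ E)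
    (hi : IsIntegral R f) : f ∈ ICl v R E :=
  ⟨f, ⟨hf, hi⟩, 1, (icl R E).one_mem, one_ne_zero, v.map_one, by rw [div_one]⟩

theorem le_ICl {R : Subalgebra k Ω} {E : IntermediateField k Ω} (hR : ∀ f ∈ R, f ∈ E) :
    R ≤ ICl v R E := by
  intro f hf
  exact ICl_of_icl (hR f hf) (isIntegral_algebraMap (R := R) (x := (⟨f, hf⟩ : R)))

theorem isIntegral_mono {R R' : Subalgebra k Ω} (h : R ≤ R') {f : Ω} (hf : IsIntegral R f) :
    IsIntegral R' f := by
  obtain ⟨q, hq, hq0⟩ := hf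
  refine ⟨q.map (Subalgebra.inclusion h).toRingHom, hq.map _, ?_⟩
  rw [Polynomial.eval₂_map]
  exact hq0

/-- The cone ring lies in the limit ring. -/
theorem cone_le_Oinf {x x' : Fin r → Ω} (y : Fin D → Ω) (hpos : ∀ i, 0 < v (x' i))
    (hx : ∀ i, ∃ l, x' i = mx x l) :
    Algebra.adjoin k (Set.range x' ∪ Set.range y) ≤ Oinf k v x y := by
  refine Algebra.adjoin_le ?_
  rintro _ (⟨i, rfl⟩ | ⟨j, rfl⟩)
  · obtain ⟨l, hl⟩ := hx i
    exact Algebra.subset_adjoin (Or.inl ⟨l, by rw [← hl]; exact (hpos i).le, hl⟩)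
  · exact Algebra.subset_adjoin (Or.inr ⟨j, rfl⟩)

theorem le_locv {v : RVal Ω} (S : Subalgebra k Ω) : S ≤ locv v S := fun a ha =>
  ⟨a, ha, 1, S.one_mem, one_ne_zero, v.map_one, by rw [div_one]⟩

theorem TDm.x_mem {T : TD k v r ι} {A : AD k (Fin r ⊕ Fin D) E} {m : ℕ} {f₀ : Ω}
    {α : Fin r → ι → ℤ} {S : Finset ι} (hT : TDm p A m T f₀ α S) (i : Fin r) : T.x i ∈ E := by
  rw [← hT.gen]
  exact IntermediateField.subset_adjoin k _ (Or.inl ⟨i, rfl⟩)

theorem TDm.b_mem {T : TD k v r ι} {A : AD k (Fin r ⊕ Fin D) E} {m : ℕ} {f₀ : Ω}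
    {α : Fin r → ι → ℤ} {S : Finset ι} (hT : TDm p A m T f₀ α S) (j : ι) : T.b j ∈ E := by
  rw [← hT.gen]
  exact IntermediateField.subset_adjoin k _ (Or.inr ⟨j, rfl⟩)

/-- The limit ring lies in `E`. -/
theorem locv_Oinf_le {x : Fin r → Ω} {y : Fin D → Ω} (hx : ∀ i, x i ∈ E) (hy : ∀ j, y j ∈ E)
    {f : Ω} (hf : f ∈ locv v (Oinf k v x y)) : f ∈ E := by
  have h1 : Oinf k v x y ≤ E.toSubalgebra := by
    refine Algebra.adjoin_le ?_
    rintro _ (⟨l, -, rfl⟩ | ⟨j, rfl⟩)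
    · exact mx_mem_field E x hx l
    · exact hy j
  obtain ⟨a, ha, b, hb, -, -, rfl⟩ := hf
  exact E.div_mem (h1 ha) (h1 hb)

/-- R6a: Zariski's main theorem: `A_inf` lies in the local ring at the centre of the
integral closure of `F.R` in `E`. -/
theorem Ainf_le (h : CtxR k v n r) (A : AD k (Fin r ⊕ Fin D) E) {m : ℕ}
    {T : TD k v r ι} {f₀ : Ω} {α : Fin r → ι → ℤ} {S : Finset ι} (hT : TDm p A m T f₀ α S)
    {s₀ : ℕ} {c : Fin D → ι → k} (hc : Good T A s₀ c) {F : FR k v D}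
    (hF : FROf F T.x (yc T.b c)) :
    Ainf k v T.x T.b ≤ ICl v F.R E := by
  classical
  set y := yc T.b c with hy
  have hyW : ∀ j, y j ∈ Wb k T.b := fun j => yc_mem T.b c j
  have hyE : ∀ j, y j ∈ E := fun j => Ab_le_field E hT.b_mem (Wb_le_Ab T.b (hyW j))
  have hRE : ∀ f ∈ F.R, f ∈ E := by
    intro f hf
    rw [hF.R_eq] at hf
    exact locv_Oinf_le hT.x_mem hyE hf
  obtain ⟨T', hb, hpos, hx1, hx2, hIs, hXA⟩ := exists_cone h.toCtx0 T
  have hrel := hrel_of_GG1 hb hXA hc.G1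
  have hyW' : ∀ j, y j ∈ Wb k T'.b := fun j => by rw [hb]; exact hyW j
  obtain ⟨h', hh'A, hh'm, hh'int, hh'⟩ := zmt_Ax h.toCtx0 T' hpos y s₀ hyW' hrel
  have hOR : Algebra.adjoin k (Set.range T'.x ∪ Set.range y) ≤ F.R := by
    rw [hF.R_eq]
    exact (cone_le_Oinf y hpos hx1).trans (le_locv _)
  have hAxE : ∀ g ∈ Ax k T'.x T'.b, g ∈ E := by
    have h1 : Ax k T'.x T'.b ≤ E.toSubalgebra := by
      refine Algebra.adjoin_le ?_
      rintro g (⟨i, rfl⟩ | ⟨j, rfl⟩ | ⟨j, rfl⟩)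
      · obtain ⟨l, hl⟩ := hx1 i
        rw [hl]
        exact mx_mem_field E _ hT.x_mem l
      · rw [hb]
        exact hT.b_mem j
      · rw [hb]
        exact E.inv_mem (hT.b_mem j)
    exact fun g hg => h1 hg
  have hh'0 : h' ≠ 0 := by
    rintro rfl
    exact hh'm Pool.Agent.LU1.VPos.zero
  have hh'v : v h' = 0 := by
    refine le_antisymm ?_ (ge_Ax h.toCtx0 hpos T'.b_ne T'.b_res hh'A hh'0)
    by_contra hlt
    push Not at hlt
    exact hh'm fun _ => hlt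
  refine Algebra.adjoin_le ?_
  rintro g (⟨l, hl, rfl⟩ | hg)
  · refine le_ICl hRE ?_
    have h1 := F.χ_mem (v (mx T.x l)) ((hF.Γ_iff _).2 ⟨l, rfl⟩) hl
    rwa [hF.χ_mx] at h1
  · have hgA : g ∈ Ax k T'.x T'.b := by
      rw [hb]
      exact Ab_le_Ax₅ _ _ hg
    obtain ⟨e, he⟩ := hh' g hgA
    refine ⟨h' ^ e * g, ⟨?_, isIntegral_mono hOR he⟩, h' ^ e,
      ⟨pow_mem (hAxE _ hh'A) e, (isIntegral_mono hOR hh'int).pow e⟩, pow_ne_zero _ hh'0, ?_, ?_⟩
    · exact E.mul_mem (pow_mem (hAxE _ hh'A) e) (hAxE _ hgA)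
    · rw [v.map_pow hh'0, hh'v, mul_zero]
    · rw [mul_div_cancel_left₀ _ (pow_ne_zero _ hh'0)]

theorem adjoin_cone_eq {x x' : Fin r → Ω} (Y : Set Ω) (hx1 : ∀ i, ∃ l, x' i = mx x l)
    (hx2 : ∀ i, ∃ l, x i = mx x' l) :
    IntermediateField.adjoin k (Set.range x' ∪ Y) = IntermediateField.adjoin k (Set.range x ∪ Y) := by
  apply le_antisymm
  · rw [IntermediateField.adjoin_le_iff]
    rintro z (⟨i, rfl⟩ | hz)
    · obtain ⟨l, hl⟩ := hx1 i
      rw [hl]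
      exact mx_mem_field _ _ (fun i => IntermediateField.subset_adjoin k _ (Or.inl ⟨i, rfl⟩)) _
    · exact IntermediateField.subset_adjoin k _ (Or.inr hz)
  · rw [IntermediateField.adjoin_le_iff]
    rintro z (⟨i, rfl⟩ | hz)
    · obtain ⟨l, hl⟩ := hx2 i
      rw [hl]
      exact mx_mem_field _ _ (fun i => IntermediateField.subset_adjoin k _ (Or.inl ⟨i, rfl⟩)) _
    · exact IntermediateField.subset_adjoin k _ (Or.inr hz)

/-- The field of fractions of the limit ring. -/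
theorem frac_eq_adjoin {R : Subalgebra k Ω} {x : Fin r → Ω} {y : Fin D → Ω}
    (hx0 : ∀ i, x i ≠ 0) (hR : R = locv v (Oinf k v x y)) {K : IntermediateField k Ω}
    (hK : FracIs R K) : K = IntermediateField.adjoin k (Set.range x ∪ Set.range y) := by
  apply le_antisymm
  · intro g hg
    obtain ⟨a, ha, b, hb, -, rfl⟩ := hK.2 g hg
    rw [hR] at ha hb
    refine IntermediateField.div_mem _ ?_ ?_
    · exact locv_Oinf_le (fun i => IntermediateField.subset_adjoin k _ (Or.inl ⟨i, rfl⟩))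
        (fun j => IntermediateField.subset_adjoin k _ (Or.inr ⟨j, rfl⟩)) ha
    · exact locv_Oinf_le (fun i => IntermediateField.subset_adjoin k _ (Or.inl ⟨i, rfl⟩))
        (fun j => IntermediateField.subset_adjoin k _ (Or.inr ⟨j, rfl⟩)) hb
  · rw [IntermediateField.adjoin_le_iff]
    have hO : ∀ f ∈ Oinf k v x y, f ∈ K := fun f hf => hK.1 f (by rw [hR]; exact le_locv _ hf)
    rintro z (⟨i, rfl⟩ | ⟨j, rfl⟩)
    · rcases le_total 0 (v (x i)) with h1 | h1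
      · refine hO _ (Algebra.subset_adjoin (Or.inl ⟨Pi.single i 1, ?_, ?_⟩))
        · rw [mx_single, zpow_one]; exact h1
        · rw [mx_single, zpow_one]
      · have h2 : (x i)⁻¹ ∈ K := by
          refine hO _ (Algebra.subset_adjoin (Or.inl ⟨Pi.single i (-1), ?_, ?_⟩))
          · rw [mx_single, zpow_neg_one, v.map_inv (hx0 i)]
            linarith
          · rw [mx_single, zpow_neg_one]
        have h3 := K.inv_mem h2
        rwa [inv_inv] at h3
    · exact hO _ (Algebra.subset_adjoin (Or.inr ⟨j, rfl⟩))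

/-- R6b, with the separability as a hypothesis. -/
theorem rho_bound_of (h : CtxR k v n r) [IsAlgClosed k] (hn : n = r + D)
    (halg : ∀ g : Ω, IsAlgebraic E g) (A : AD k (Fin r ⊕ Fin D) E)
    (hsepJ : ∀ (x : Fin r → Ω) (y : Fin D → Ω), (∀ i, x i ∈ E ∧ x i ≠ 0) → (∀ j, y j ∈ E) →
      (JM E A.δ x y).det ≠ 0 →
      ∀ g ∈ E, IsSeparable (IntermediateField.adjoin k (Set.range x ∪ Set.range y)) g) :
    ∃ m₀, ∀ m ≥ m₀, ∀ {ι : Type} [Fintype ι] (T : TD k v r ι) (f₀ : Ω) (α : Fin r → ι → ℤ)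
      (S : Finset ι), TDm p A m T f₀ α S → ∀ (s₀ : ℕ) (c : Fin D → ι → k), Good T A s₀ c →
      ∀ F : FR k v D, FROf F T.x (yc T.b c) →
      ∀ K : IntermediateField k Ω, FracIs F.R K →
      ∀ (N : IntermediateField K Ω) [FiniteDimensional K N] [IsGalois K N]
        (H : Subgroup (N ≃ₐ[K] N)), fixO K N H = E →
        H.relIndex (decP v F.R K N) ≤ 2 ^ n * n.factorial := by
  classical
  have hfV := A.fin
  have hV1 : (1 : Submodule k Ω) ⊔ A.V = A.V := sup_eq_right.2 (Submodule.one_le.2 A.one_mem)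
  obtain ⟨C, hC⟩ := ALB.growth n (le_of_eq h.trdeg) A.V
  rw [hV1] at hC
  have hlow := growth_low h.toCtx0 E halg A.V A.one_mem A.gen
  have hmono : Monotone fun t : ℕ => finrank k ↥(A.V ^ t) := by
    intro s t hst
    have : FiniteDimensional k ↥(A.V ^ t) := by
      have := ALB.finite_one_sup_pow A.V t
      rwa [hV1] at this
    exact Submodule.finrank_mono (pow_mono_of_one_mem A.one_mem hst)
  obtain ⟨m₁, hm₁⟩ := liminf_rho (n := n) (fun t => finrank k ↥(A.V ^ t)) hmono hlow ⟨C, hC⟩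
  refine ⟨m₁, fun m hm ι _ T f₀ α S hT s₀ c hc F hF K hK N _ _ H hH => ?_⟩
  by_contra hlt
  push Not at hlt
  refine hm₁ m hm ?_
  set y := yc T.b c with hy
  have hyW : ∀ j, y j ∈ Wb k T.b := fun j => yc_mem T.b c j
  have hyE : ∀ j, y j ∈ E := fun j => Ab_le_field E hT.b_mem (Wb_le_Ab T.b (hyW j))
  obtain ⟨T', hb, hpos, hx1, hx2, hIs, hXA⟩ := exists_cone h.toCtx0 T
  have hrel := hrel_of_GG1 hb hXA hc.G1
  have hyW' : ∀ j, y j ∈ Wb k T'.b := fun j => by rw [hb]; exact hyW j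
  have hKeq := frac_eq_adjoin T.x_ne hF.R_eq hK
  have hKeq' : K = IntermediateField.adjoin k (Set.range T'.x ∪ Set.range y) := by
    rw [hKeq, adjoin_cone_eq (Set.range y) hx1 hx2]
  have hsep : ∀ g ∈ E, IsSeparable K g := by
    have h1 := hsepJ T.x y (fun i => ⟨hT.x_mem i, T.x_ne i⟩) hyE hc.G2
    rw [← hKeq] at h1
    exact h1
  have hE' : IntermediateField.adjoin k (Set.range T'.x ∪ Set.range T'.b) = E := by
    rw [hb, adjoin_cone_eq _ hx1 hx2]
    exact hT.gen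
  have hX' : ∀ g ∈ Ab k T'.b, g ∈ Is (k := k) v T'.x T'.b → g ∈ XA k T'.x T'.b := by
    intro g hg hgI
    rw [hIs] at hgI
    rw [hb] at hg
    exact hXA g hg hgI
  have hOR : Algebra.adjoin k (Set.range T'.x ∪ Set.range y) ≤ F.R := by
    rw [hF.R_eq]
    exact (cone_le_Oinf y hpos hx1).trans (le_locv _)
  obtain ⟨c₁, hc₁⟩ := rho_qs h.toCtx0 hn E halg T' hpos hE' hX' y s₀ hyW' hrel K hKeq' hsep
    N H hH (decP v F.R K N) (fun σ hσ a ha hva =>
      ((hσ a (isIntegral_mono hOR ha)).2.2).1 hva) (2 ^ n * n.factorial + 1) hlt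
  refine ⟨c₁, fun s hs => ?_⟩
  have hinf : Infinite k := IsAlgClosed.instInfinite
  have h1 := hc₁ s hs
  have hβ : beta k v T'.x T'.b = beta k v T.x T.b := beta_congr hb hIs
  rw [hβ] at h1
  have h2 := key h.toCtx0 T s
  rw [hT.card, hT.span_eq, ALB.finrank_span_inv_mul_pow hT.f₀_ne, ← pow_mul] at h2
  exact (Nat.mul_le_mul_left _ h1).trans h2

end

end Pool.Agent.ALL
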