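import Pool.Agent.Lib.ALLX.R1b_h3
import Pool.Agent.Lib.ALLX.R0_h83
import Pool.Agent.Lib.ALLX.R3a_h14
import Pool.Agent.Lib.ALLX.R5_h88
import Pool.Agent.Lib.ALLX.R6
import Pool.Agent.Lib.ALLX.R10
import Pool.Agent.Lib.ALLX.A23_h83
import Pool.Agent.Lib.ALLX.Gal_h78
import Pool.Agent.Lib.ALLX_h54.R12
import Pool.Agent.Lib.ALL_h5.ExistsOrd
import Pool.Agent.Lib.ALL_h94.Norm
import Pool.Agent.Lib.ALL.Iface
import Pool.Agent.Lib.LU1_h15.GalSep

/-!
# PROJECT ALL, block X: the assembly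
-/

set_option autoImplicit false

namespace Pool.Agent.ALL

open Pool.Agent.H15JM (RVal)
open Pool.Agent.LU1 (VPos fixO locv FracIs)
open Pool.Agent.LU3 (Ctx0)
open Pool.Agent.TA
open Pool.Agent.AD78 (evA)
open Pool.Agent.ALLh85 (extD)
open Submodule Module

universe u

variable {k Ω : Type u} [Field k] [Field Ω] [Algebra k Ω] {v : RVal Ω} {n r D : ℕ} {p : ℕ}
  {ι : Type} [Fintype ι] {E : IntermediateField k Ω}

theorem numX {n r D p ρ M : ℕ} (hn : n = r + D) (hD : 0 < D) (hp : p0 n < p)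
    (hρ : ρ ≤ 2 ^ n * n.factorial) (hM : M < (n + 2 + r) * 4 ^ (n - 1) * n.factorial) :
    ρ < p ∧ ρ * M < p := by
  obtain ⟨m, rfl⟩ : ∃ m, n = m + 1 := ⟨n - 1, by omega⟩
  have hf : 0 < (m + 1).factorial := Nat.factorial_pos _
  have h1 : p0 (m + 1) = 2 ^ (m + 1) * (m + 1).factorial *
      ((2 * (m + 2)) * 4 ^ m * (m + 1).factorial) := by
    unfold p0
    have h2 : 3 * (m + 1) - 1 = (m + 1) + 1 + 2 * m := by omega
    rw [h2, pow_add, pow_add _ (m + 1) 1, pow_mul]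
    norm_num
    ring
  have h3 : M ≤ (2 * (m + 2)) * 4 ^ m * (m + 1).factorial := by
    refine hM.le.trans ?_
    rw [Nat.add_sub_cancel]
    gcongr
    omega
  constructor
  · refine lt_of_le_of_lt (hρ.trans ?_) hp
    rw [h1]
    refine Nat.le_mul_of_pos_right _ ?_
    positivity
  · refine lt_of_le_of_lt ?_ hp
    rw [h1]
    exact Nat.mul_le_mul hρ h3

theorem isAlgebraic_trans_of {K E : IntermediateField k Ω} (hKE : K ≤ E)
    (halg : ∀ g : Ω, IsAlgebraic E g) (hE : ∀ g ∈ E, IsAlgebraic K g) (g : Ω) :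
    IsAlgebraic K g := by
  let E' : IntermediateField K Ω := IntermediateField.extendScalars hKE
  have h1 : Algebra.IsAlgebraic K E' := ⟨fun z => by
    have h2 := hE (z : Ω) z.2
    exact (isAlgebraic_algebraMap_iff (algebraMap E' Ω).injective).1 h2⟩
  have h3 : IsAlgebraic E' g := halg g
  exact h3.restrictScalars K

/-- BLOCK X, `D ≥ 1`. -/
theorem xcase (hp : p.Prime) (hp3 : 3 ≤ p) [CharP k p] [IsAlgClosed k] [IsAlgClosed Ω]
    (h : CtxR k v n r) (hr : 0 < r) (hn : n = r + D) (hD : 0 < D) (hpn : p0 n < p)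
    (halg : ∀ g : Ω, IsAlgebraic E g) (Z : Finset Ω) (hZ : ∀ z ∈ Z, z ≠ 0)
    (hZE : IntermediateField.adjoin k (Z : Set Ω) = E) :
    ∃ (F : FR k v D) (K : IntermediateField k Ω) (N : IntermediateField K Ω)
      (_ : FiniteDimensional K N) (_ : IsGalois K N) (H : Subgroup (N ≃ₐ[K] N)) (Q Q' : Ω),
      XD v p E Z F K N H Q Q' := by
  classical
  have hfg : ∃ S : Finset Ω, E = IntermediateField.adjoin k (S : Set Ω) := ⟨Z, hZE.symm⟩
  have hZ' : ∀ z ∈ Z, z ∈ E ∧ z ≠ 0 := fun z hz =>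
    ⟨hZE ▸ IntermediateField.subset_adjoin k _ hz, hZ z hz⟩
  obtain ⟨A, -⟩ := exists_AD h hn E hfg halg Z hZ'
  obtain ⟨m₁, hm₁⟩ := rho_bound_of (p := p) h hn halg A fun x y hx hy hd =>
    (sep_iff_det h hn halg A x y hx hy).1 hd
  obtain ⟨m₂, hm₂⟩ := exists_den (p := p) h.toCtx0 A Z hZ hZE
  obtain ⟨m, hm, T, f₀, α, S, s₀, c, q, g, hT, hc, hqE, hdet, hg0, hgdeg, w, hw, e, he, u, hu,
    hgq⟩ := exists_g_of hp hp3 h hn hr hD hfg halg A (m₁ + m₂ + A.c₀ + (r + D) * A.c₀)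
      fun m T f₀ α S hT => exists_good_of h hn halg A hT fun x y hx hy =>
        (sep_iff_det h hn halg A x y hx hy).2
  have hxE : ∀ i, T.x i ∈ E ∧ T.x i ≠ 0 := fun i =>
    ⟨hT.gen.le (IntermediateField.subset_adjoin k _ (Or.inl ⟨i, rfl⟩)), T.x_ne i⟩
  have hbE : ∀ j, T.b j ∈ E := fun j =>
    hT.gen.le (IntermediateField.subset_adjoin k _ (Or.inr ⟨j, rfl⟩))
  have hyE : ∀ j, yc T.b c j ∈ E := fun j =>
    sum_mem fun i _ => IntermediateField.smul_mem E (sub_mem (hbE i) (one_mem _))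
  have hyW : ∀ j, yc T.b c j ∈ Wb k T.b := fun j => yc_mem_Wb T.b c j
  -- the parameters
  have hy0 : ∀ j, yc T.b c j ≠ 0 := by
    intro j hj
    apply hc.G2
    refine Matrix.det_eq_zero_of_row_eq_zero (Sum.inr j) fun b => ?_
    change extD E (A.δ b) (yc T.b c j) = 0
    rw [hj]
    exact (Pool.Agent.ALLh85.isDer_extD E (A.δ b)).zero
  have hypos : ∀ j, 0 < v (yc T.b c j) := by
    intro j
    have h1 : VPos v (yc T.b c j) := by
      refine Finset.sum_induction _ (VPos v) (fun _ _ => LU1.VPos.add) LU1.VPos.zero fun i _ => ?_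
      rw [Algebra.smul_def]
      refine LU1.VPos.mul' (fun h0 => ?_) (T.b_res i)
      rw [h.triv]
      intro h1
      apply h0
      rw [h1, map_zero]
    exact h1 (hy0 j)
  have hsep := (sep_iff_det h hn halg A T.x (yc T.b c) hxE hyE).1 hc.G2
  obtain ⟨K, hK⟩ : ∃ K, K = IntermediateField.adjoin k (Set.range T.x ∪ Set.range (yc T.b c)) :=
    ⟨_, rfl⟩
  have hKE : K ≤ E := by
    rw [hK, IntermediateField.adjoin_le_iff]
    rintro _ (⟨i, rfl⟩ | ⟨j, rfl⟩)
    · exact (hxE i).1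
    · exact hyE j
  have halgK : ∀ g : Ω, IsAlgebraic K g := by
    rw [← hK] at hsep
    exact isAlgebraic_trans_of hKE halg fun g hg => (hsep g hg).isIntegral.isAlgebraic
  obtain ⟨F, hF, hFr, hFf⟩ := exists_FROf h hr T.x T.x_ne T.x_ind (yc T.b c)
    (fun j => ⟨hy0 j, hypos j⟩) (hK ▸ halgK)
  rw [← hK] at hFf hsep
  obtain ⟨N, hNfin, hNgal, hZN⟩ := Pool.Agent.LU1.exists_galois_closure K halgK Z fun z hz =>
    hsep z (hZ' z hz).1
  have hEN : ∀ g ∈ E, g ∈ N := by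
    intro g hg
    have h1 : IntermediateField.adjoin k (Z : Set Ω) ≤ N.restrictScalars k := by
      rw [IntermediateField.adjoin_le_iff]
      exact fun z hz => hZN z hz
    exact h1 (hZE ▸ hg)
  obtain ⟨H, hH⟩ := Pool.Agent.LU1.exists_fixO_eq K N E hKE hEN
  have hA := Ainf_le h A hT hc hF
  have hB : Pool.Agent.ALL5.Base v F.R K := by
    have hpf : Fact p.Prime := ⟨hp⟩
    have hcΩ : CharP Ω p := charP_of_injective_algebraMap (algebraMap k Ω).injective p
    exact ⟨fun f hf => hFf.1 f hf, F.nonneg, F.loc, fun f hf hi =>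
      Pool.Agent.ALLh94.fr_normal p h (fun c => IsAlgClosed.exists_pow_nat_eq c hp.pos) hr hn F hFf
        hf hi⟩
  have hmm : m₁ ≤ m ∧ m₂ ≤ m ∧ A.c₀ ≤ m ∧ (r + D) * A.c₀ ≤ m := by omega
  -- the element `G`
  have hAbE : Ab k T.b ≤ E.toSubalgebra := by
    refine Algebra.adjoin_le ?_
    rintro _ (⟨j, rfl⟩ | ⟨j, rfl⟩)
    · exact hbE j
    · exact E.inv_mem (hbE j)
  have hmxE : ∀ l : Fin r → ℤ, mx T.x l ∈ E := fun l =>
    prod_mem fun i _ => zpow_mem (hxE i).1 _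
  have hwE : w ∈ E := by
    have h1 : Axi k T.x T.b ≤ E.toSubalgebra := by
      refine Algebra.adjoin_le ?_
      rintro _ (⟨l, rfl⟩ | h2)
      · exact hmxE l
      · exact hAbE h2
    exact h1 hw
  have hGE : q * w ∈ E := mul_mem hqE hwE
  obtain ⟨G, hGc⟩ : ∃ G : N, (G : Ω) = q * w := ⟨⟨q * w, hEN _ hGE⟩, rfl⟩
  have hGg : (G : Ω) = MvPolynomial.aeval (yc T.b c) g + (-e) + (-u) := by
    rw [hGc, hgq]
    ring
  obtain ⟨hG0, F₁, hS1, hle1, M', hM', hord⟩ := Pool.Agent.ALL5.exists_ord_of_base h.toCtx0 hn hxE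
    T.x_ind hbE T.b_res hyW hc.G1 hF hB hA hFf N H hH hg0 hgdeg (neg_mem he) (neg_mem hu) hGg
  have hGI : (G : Ω) ∈ ICl v F.R E := by
    apply hA
    have hAb : Ab k T.b ≤ Ainf k v T.x T.b := fun z hz => Algebra.subset_adjoin (Or.inr hz)
    have hWb : ∀ z ∈ Wb k T.b, z ∈ Ab k T.b := fun z hz => by
      have h1 : Wb k T.b ≤ (Ab k T.b).toSubmodule := by
        unfold Wb
        rw [span_le]
        rintro _ ⟨j, rfl⟩
        exact (Ab k T.b).sub_mem (b_mem _ _) (one_mem _)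
      exact h1 hz
    rw [hGg]
    refine add_mem (add_mem ?_ (neg_mem ?_)) (neg_mem ?_)
    · have h1 : ∀ P : MvPolynomial (Fin D) k, (MvPolynomial.aeval (yc T.b c) P : Ω) ∈
          Ainf k v T.x T.b := by
        intro P
        induction P using MvPolynomial.induction_on with
        | C a =>
          rw [MvPolynomial.algHom_C]
          exact Subalgebra.algebraMap_mem _ _
        | add P P' h1 h2 =>
          rw [map_add]
          exact add_mem h1 h2
        | mul_X P i h1 =>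
          rw [map_mul, MvPolynomial.aeval_X]
          exact mul_mem h1 (hAb (hWb _ (hyW i)))
      exact h1 g
    · have h1 : Is (k := k) v T.x T.b ≤ (Ainf k v T.x T.b).toSubmodule := by
        unfold Is
        rw [span_le]
        rintro _ ⟨c', hc', l, hl, rfl⟩
        exact (Ainf k v T.x T.b).mul_mem (hAb hc') (Algebra.subset_adjoin (Or.inl ⟨l, hl.le, rfl⟩))
      exact h1 he
    · have h1 : Wb k T.b ^ ((n + 2 + r) * 4 ^ (n - 1) * n.factorial) *
          (Ab k T.b).toSubmodule ≤ (Ab k T.b).toSubmodule := by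
        have h2 : ∀ j, Wb k T.b ^ j ≤ (Ab k T.b).toSubmodule := by
          intro j
          induction j with
          | zero =>
            rw [pow_zero]
            intro z hz
            obtain ⟨a, rfl⟩ := Submodule.mem_one.1 hz
            exact Subalgebra.algebraMap_mem _ _
          | succ j ih =>
            rw [pow_succ, Submodule.mul_le]
            exact fun a ha b hb => (Ab k T.b).mul_mem (ih ha) (hWb b hb)
        rw [Submodule.mul_le]
        exact fun a ha b hb => (Ab k T.b).mul_mem (h2 _ ha) hb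
      exact hAb (h1 hu)
  obtain ⟨Q', hQ'0, hQ'I, hQ'⟩ := exists_cofactor hB N H hH G hG0 hGI
  have hρ := hm₁ m hmm.1 T f₀ α S hT s₀ c hc F hF K hFf N H hH
  obtain ⟨hZmono, hden⟩ := hm₂ m hmm.2.1 T f₀ α S hT F c hF hA
  obtain ⟨hnum1, hnum2⟩ := numX hn hD hpn hρ hM'
  refine ⟨F, K, N, hNfin, hNgal, H, q * w, Q', ?_⟩
  have h0Γ : (0 : ℝ) ∈ F.Γ := zero_mem _
  have hχ0 : F.χ 0 = 1 := by
    have h1 := F.χ_add 0 h0Γ 0 h0Γ
    rw [add_zero] at h1
    exact (mul_eq_left₀ (F.χ_ne 0 h0Γ)).1 h1.symm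
  exact
    { rat := hFr
      frac := hFf
      le := hKE
      fix := hH
      idx := hnum1
      mono := hZmono
      den := hden
      Q_mem := hGE
      Q_ne := by
        rw [← hGc]
        exact fun h0 => hG0 (Subtype.ext h0)
      Q_int := ⟨0, h0Γ, by rw [hχ0, one_mul, ← hGc]; exact hGI⟩
      der := fun d hd f hf => der_JM h.toCtx0 A hmm.2.2.1 hT hF hc.G2 hA
        (isMon_factor h.toCtx0 hmm.2.2.1 hT (r + D)) hdet (Axi_le T hw) d hd f hf
      Q'_mem := Q'.2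
      Q'_ne := fun h0 => hQ'0 (Subtype.ext h0)
      Q'_int := ⟨0, h0Γ, by rw [hχ0, one_mul]; exact hQ'I⟩
      ord := ⟨F₁, hS1, hle1, 0, _, hnum2, by rw [← hGc, ← hQ']; exact hord⟩ }

/-- BLOCK X. -/
theorem xstmt (k : Type u) [Field k] [IsAlgClosed k] (p n : ℕ) (hp : p.Prime) [CharP k p]
    (hpn : p0 n < p) : XStmt k p n := by
  intro Ω _ _ _ v r D h hr hn E halg Z hZ hZE
  have hn1 : 0 < n := by omega
  have hf : 0 < n.factorial := Nat.factorial_pos n
  have h1 : 2 ^ n * n.factorial ≤ p0 n := by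
    unfold p0
    have h2 : 2 ^ n ≤ 2 ^ (3 * n - 1) := Nat.pow_le_pow_right (by norm_num) (by omega)
    have h3 : n.factorial ≤ n.factorial ^ 2 := Nat.le_self_pow (by norm_num) _
    calc 2 ^ n * n.factorial ≤ 2 ^ (3 * n - 1) * n.factorial ^ 2 := Nat.mul_le_mul h2 h3
      _ ≤ (n + 1) * (2 ^ (3 * n - 1) * n.factorial ^ 2) := Nat.le_mul_of_pos_left _ (by omega)
      _ = _ := by ring
  have hp3 : 3 ≤ p := by
    have h2 : 2 ≤ 2 ^ n * n.factorial := by
      calc 2 = 2 ^ 1 * 1 := by norm_num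
        _ ≤ 2 ^ n * n.factorial := Nat.mul_le_mul (Nat.pow_le_pow_right (by norm_num) hn1) hf
    omega
  rcases Nat.eq_zero_or_pos D with hD | hD
  · subst hD
    exact xd_zero h hr hn (lt_of_le_of_lt h1 hpn) E halg Z hZ hZE
  · exact xcase hp hp3 h hr hn hD hpn halg Z hZ hZE

end Pool.Agent.ALL
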